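import Mathlib

open Computability

namespace Pool.Agent.Results.MP_48fb2a_lc.QuadraticGap

universe u

/-- Number of transitions of an NFA. -/
noncomputable def numTransitions {α : Type u} {σ : Type} (M : NFA α σ) : ℕ :=
  Nat.card {t : σ × α × σ // t.2.2 ∈ M.step t.1 t.2.1}

/-- `L` is recognised by an NFA with exactly `n` states, a single start state, and exactly `t`
transitions. -/
def HasNFA {α : Type u} (L : Language α) (n t : ℕ) : Prop :=
  ∃ (M : NFA α (Fin n)) (q₀ : Fin n), M.start = {q₀} ∧ M.accepts = L ∧ numTransitions M = t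

/-- Nondeterministic state complexity. -/
noncomputable def nsc {α : Type u} (L : Language α) : ℕ := sInf {n | ∃ t, HasNFA L n t}

/-- Transition complexity. -/
noncomputable def tc {α : Type u} (L : Language α) : ℕ := sInf {t | ∃ n, HasNFA L n t}

/-- Least number of states of a transition-minimal NFA. -/
noncomputable def T {α : Type u} (L : Language α) : ℕ := sInf {n | HasNFA L n (tc L)}

section reindex

variable {α : Type u} {σ τ : Type}

/-- Transport of an NFA along an equivalence. -/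
def reN (e : σ ≃ τ) (M : NFA α σ) : NFA α τ where
  step t c := e.symm ⁻¹' (M.step (e.symm t) c)
  start := e.symm ⁻¹' M.start
  accept := e.symm ⁻¹' M.accept

theorem reN_evalFrom (e : σ ≃ τ) (M : NFA α σ) (S : Set σ) (w : List α) :
    (reN e M).evalFrom (e.symm ⁻¹' S) w = e.symm ⁻¹' (M.evalFrom S w) := by
  induction w generalizing S with
  | nil => simp
  | cons c w ih =>
    rw [NFA.evalFrom_cons, NFA.evalFrom_cons, ← ih]
    congr 1
    ext t
    simp only [NFA.mem_stepSet, Set.mem_preimage, reN]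
    constructor
    · rintro ⟨x, hx, h⟩
      exact ⟨e.symm x, hx, h⟩
    · rintro ⟨x, hx, h⟩
      exact ⟨e x, by simpa using hx, by simpa using h⟩

theorem reN_accepts (e : σ ≃ τ) (M : NFA α σ) : (reN e M).accepts = M.accepts := by
  ext w
  rw [NFA.mem_accepts, NFA.mem_accepts]
  show (∃ S ∈ e.symm ⁻¹' M.accept, S ∈ (reN e M).evalFrom (e.symm ⁻¹' M.start) w) ↔ _
  rw [reN_evalFrom]
  constructor
  · rintro ⟨x, hx, h⟩
    exact ⟨e.symm x, hx, h⟩
  · rintro ⟨x, hx, h⟩
    exact ⟨e x, by simpa using hx, by simpa using h⟩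

theorem reN_numTransitions (e : σ ≃ τ) (M : NFA α σ) :
    numTransitions (reN e M) = numTransitions M := by
  unfold numTransitions
  apply Nat.card_congr
  refine Equiv.subtypeEquiv (Equiv.prodCongr e.symm (Equiv.prodCongr (Equiv.refl α) e.symm)) ?_
  rintro ⟨x, c, y⟩
  simp [reN]

theorem hasNFA_of [Fintype σ] (M : NFA α σ) (q₀ : σ) (h : M.start = {q₀}) :
    HasNFA M.accepts (Fintype.card σ) (numTransitions M) := by
  classical
  refine ⟨reN (Fintype.equivFin σ) M, Fintype.equivFin σ q₀, ?_, reN_accepts _ _,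
    reN_numTransitions _ _⟩
  ext t
  simp [reN, h, Equiv.symm_apply_eq]

end reindex

section network

variable {α : Type u} {X Y : Type} {A B : ℕ}

/-- The layered NFA. -/
def net (a b : α) (P : Fin (A + 1) → X → Prop) (Q : X → Y → Prop) (S : Y → Fin (B + 1) → Prop) :
    NFA α (Fin (A + 1) ⊕ X ⊕ Y ⊕ Fin (B + 1)) where
  step s c := match s with
    | Sum.inl i => {s' | (c = a ∧ ∃ j : Fin (A + 1), (j : ℕ) = i + 1 ∧ s' = Sum.inl j) ∨
        (c = b ∧ ∃ x, P i x ∧ s' = Sum.inr (Sum.inl x))}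
    | Sum.inr (Sum.inl x) => {s' | c = b ∧ ∃ y, Q x y ∧ s' = Sum.inr (Sum.inr (Sum.inl y))}
    | Sum.inr (Sum.inr (Sum.inl y)) =>
        {s' | c = b ∧ ∃ j, S y j ∧ s' = Sum.inr (Sum.inr (Sum.inr j))}
    | Sum.inr (Sum.inr (Sum.inr j)) =>
        {s' | c = a ∧ ∃ j' : Fin (B + 1), (j' : ℕ) + 1 = j ∧ s' = Sum.inr (Sum.inr (Sum.inr j'))}
  start := {Sum.inl 0}
  accept := {Sum.inr (Sum.inr (Sum.inr 0))}

/-- The word `a^i b b b a^j`. -/
def word (a b : α) (i j : ℕ) : List α :=
  List.replicate i a ++ (b :: b :: b :: List.replicate j a)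

/-- The language of all words `a^i b b b a^j` with `R i j`. -/
def Lang (a b : α) (R : Fin (A + 1) → Fin (B + 1) → Prop) : Language α :=
  {w | ∃ i j, R i j ∧ w = word a b i j}

theorem cons_mem_acceptsFrom_singleton {σ : Type} (M : NFA α σ) (s : σ) (c : α) (w : List α) :
    c :: w ∈ M.acceptsFrom {s} ↔ ∃ s' ∈ M.step s c, w ∈ M.acceptsFrom {s'} := by
  rw [NFA.cons_mem_acceptsFrom, NFA.stepSet_singleton, NFA.mem_acceptsFrom]
  constructor
  · rintro ⟨t, ht, h⟩
    rw [NFA.mem_evalFrom_iff_exists] at h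
    obtain ⟨s', hs', h⟩ := h
    exact ⟨s', hs', t, ht, h⟩
  · rintro ⟨s', hs', t, ht, h⟩
    refine ⟨t, ht, ?_⟩
    rw [NFA.mem_evalFrom_iff_exists]
    exact ⟨s', hs', h⟩

variable (a b : α) (P : Fin (A + 1) → X → Prop) (Q : X → Y → Prop) (S : Y → Fin (B + 1) → Prop)

theorem net_col (j : Fin (B + 1)) (w : List α) :
    w ∈ (net a b P Q S).acceptsFrom {Sum.inr (Sum.inr (Sum.inr j))} ↔
      w = List.replicate j a := by
  induction w generalizing j with
  | nil =>
    rw [NFA.nil_mem_acceptsFrom]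
    simp only [net, Set.mem_singleton_iff, exists_eq_left, Sum.inr.injEq]
    rw [eq_comm (a := ([] : List α)), List.replicate_eq_nil_iff, Fin.ext_iff]
    simp
  | cons c w ih =>
    rw [cons_mem_acceptsFrom_singleton]
    constructor
    · rintro ⟨s', ⟨hc, j', hj', rfl⟩, hw⟩
      rw [ih] at hw
      rw [hc, hw, ← hj', List.replicate_succ]
    · intro h
      have hj : (j : ℕ) ≠ 0 := by
        intro h0
        rw [h0] at h
        simp at h
      obtain ⟨k, hk⟩ := Nat.exists_eq_succ_of_ne_zero hj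
      rw [hk, List.replicate_succ, List.cons.injEq] at h
      have hk' : k < B + 1 := by have := j.2; omega
      refine ⟨Sum.inr (Sum.inr (Sum.inr ⟨k, hk'⟩)), ⟨h.1, ⟨k, hk'⟩, by simp [hk], rfl⟩, ?_⟩
      rw [ih]
      exact h.2

theorem net_Y (y : Y) (w : List α) :
    w ∈ (net a b P Q S).acceptsFrom {Sum.inr (Sum.inr (Sum.inl y))} ↔
      ∃ j, S y j ∧ w = b :: List.replicate j a := by
  cases w with
  | nil =>
    rw [NFA.nil_mem_acceptsFrom]
    simp [net]
  | cons c w =>
    rw [cons_mem_acceptsFrom_singleton]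
    constructor
    · rintro ⟨s', ⟨hc, j, hj, rfl⟩, hw⟩
      rw [net_col] at hw
      exact ⟨j, hj, by rw [hc, hw]⟩
    · rintro ⟨j, hj, h⟩
      rw [List.cons.injEq] at h
      refine ⟨_, ⟨h.1, j, hj, rfl⟩, ?_⟩
      rw [net_col]
      exact h.2

theorem net_X (x : X) (w : List α) :
    w ∈ (net a b P Q S).acceptsFrom {Sum.inr (Sum.inl x)} ↔
      ∃ y, Q x y ∧ ∃ j, S y j ∧ w = b :: b :: List.replicate j a := by
  cases w with
  | nil =>
    rw [NFA.nil_mem_acceptsFrom]
    simp [net]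
  | cons c w =>
    rw [cons_mem_acceptsFrom_singleton]
    constructor
    · rintro ⟨s', ⟨hc, y, hy, rfl⟩, hw⟩
      rw [net_Y] at hw
      obtain ⟨j, hj, hw⟩ := hw
      exact ⟨y, hy, j, hj, by rw [hc, hw]⟩
    · rintro ⟨y, hy, j, hj, h⟩
      rw [List.cons.injEq] at h
      refine ⟨_, ⟨h.1, y, hy, rfl⟩, ?_⟩
      rw [net_Y]
      exact ⟨j, hj, h.2⟩

theorem net_row (i : Fin (A + 1)) (w : List α) :
    w ∈ (net a b P Q S).acceptsFrom {Sum.inl i} ↔
      ∃ (k : ℕ) (i' : Fin (A + 1)), (i' : ℕ) = i + k ∧ ∃ x, P i' x ∧ ∃ y, Q x y ∧ ∃ j, S y j ∧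
        w = word a b k j := by
  induction w generalizing i with
  | nil =>
    rw [NFA.nil_mem_acceptsFrom]
    simp [net, word]
  | cons c w ih =>
    rw [cons_mem_acceptsFrom_singleton]
    constructor
    · rintro ⟨s', (⟨hc, j, hj, rfl⟩ | ⟨hc, x, hx, rfl⟩), hw⟩
      · rw [ih] at hw
        obtain ⟨k, i', hi', x, hx, y, hy, l, hl, hw⟩ := hw
        refine ⟨k + 1, i', by omega, x, hx, y, hy, l, hl, ?_⟩
        rw [hc, hw, word, word, List.replicate_succ, List.cons_append]
      · rw [net_X] at hw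
        obtain ⟨y, hy, l, hl, hw⟩ := hw
        refine ⟨0, i, by omega, x, hx, y, hy, l, hl, ?_⟩
        rw [hc, hw, word, List.replicate_zero, List.nil_append]
    · rintro ⟨k, i', hi', x, hx, y, hy, l, hl, h⟩
      rcases k with _ | k
      · rw [word, List.replicate_zero, List.nil_append, List.cons.injEq] at h
        have : i' = i := Fin.ext (by simpa using hi')
        subst this
        refine ⟨_, Or.inr ⟨h.1, x, hx, rfl⟩, ?_⟩
        rw [net_X]
        exact ⟨y, hy, l, hl, h.2⟩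
      · rw [word, List.replicate_succ, List.cons_append, List.cons.injEq] at h
        have hi1 : (i : ℕ) + 1 < A + 1 := by have := i'.2; omega
        refine ⟨_, Or.inl ⟨h.1, ⟨i + 1, hi1⟩, rfl, rfl⟩, ?_⟩
        rw [ih]
        exact ⟨k, i', by simp only; omega, x, hx, y, hy, l, hl, h.2⟩

theorem net_accepts :
    (net a b P Q S).accepts = Lang a b (fun i j => ∃ x, P i x ∧ ∃ y, Q x y ∧ S y j) := by
  ext w
  rw [NFA.accepts_eq_acceptsFrom_start]
  show w ∈ (net a b P Q S).acceptsFrom {Sum.inl 0} ↔ _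
  rw [net_row a b P Q S]
  constructor
  · rintro ⟨k, i', hi', x, hx, y, hy, j, hj, hw⟩
    refine ⟨i', j, ⟨x, hx, y, hy, hj⟩, ?_⟩
    rw [hw]
    congr 1
    simpa using hi'.symm
  · rintro ⟨i, j, ⟨x, hx, y, hy, hj⟩, hw⟩
    exact ⟨i, i, by simp, x, hx, y, hy, j, hj, hw⟩

theorem net_numTransitions [Fintype X] [Fintype Y] [DecidableEq X] [DecidableEq Y]
    (P' : Finset (Fin (A + 1) × X)) (Q' : Finset (X × Y)) (S' : Finset (Y × Fin (B + 1)))
    (hP : ∀ i x, P i x → (i, x) ∈ P') (hQ : ∀ x y, Q x y → (x, y) ∈ Q')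
    (hS : ∀ y j, S y j → (y, j) ∈ S') :
    numTransitions (net a b P Q S) ≤ (A + 1) + P'.card + Q'.card + S'.card + (B + 1) := by
  classical
  let σ := Fin (A + 1) ⊕ X ⊕ Y ⊕ Fin (B + 1)
  let f1 : Fin (A + 1) → σ × α × σ := fun i => (Sum.inl i, a, Sum.inl (Fin.ofNat (A + 1) (i + 1)))
  let f2 : Fin (A + 1) × X → σ × α × σ := fun p => (Sum.inl p.1, b, Sum.inr (Sum.inl p.2))
  let f3 : X × Y → σ × α × σ :=
    fun p => (Sum.inr (Sum.inl p.1), b, Sum.inr (Sum.inr (Sum.inl p.2)))
  let f4 : Y × Fin (B + 1) → σ × α × σ :=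
    fun p => (Sum.inr (Sum.inr (Sum.inl p.1)), b, Sum.inr (Sum.inr (Sum.inr p.2)))
  let f5 : Fin (B + 1) → σ × α × σ := fun j =>
    (Sum.inr (Sum.inr (Sum.inr (Fin.ofNat (B + 1) (j + 1)))), a, Sum.inr (Sum.inr (Sum.inr j)))
  let E : Finset (σ × α × σ) := Finset.univ.image f1 ∪ P'.image f2 ∪ Q'.image f3 ∪ S'.image f4 ∪
    Finset.univ.image f5
  have hE : ∀ t : σ × α × σ, t.2.2 ∈ (net a b P Q S).step t.1 t.2.1 → t ∈ E := by
    rintro ⟨s, c, s'⟩ h
    simp only [E, Finset.mem_union, Finset.mem_image, Finset.mem_univ, true_and]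
    rcases s with i | x | y | j
    · rcases h with ⟨hc, j, hj, rfl⟩ | ⟨hc, x, hx, rfl⟩
      · left; left; left; left
        refine ⟨i, ?_⟩
        simp only [f1]
        subst hc
        congr 3
        ext
        simp only [Fin.ofNat]
        have := j.2
        rw [← hj, Nat.mod_eq_of_lt this]
      · left; left; left; right
        refine ⟨(i, x), hP i x hx, ?_⟩
        simp only [f2]
        subst hc
        rfl
    · obtain ⟨hc, y, hy, rfl⟩ := h
      left; left; right
      refine ⟨(x, y), hQ x y hy, ?_⟩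
      simp only [f3]
      subst hc
      rfl
    · obtain ⟨hc, j, hj, rfl⟩ := h
      left; right
      refine ⟨(y, j), hS y j hj, ?_⟩
      simp only [f4]
      subst hc
      rfl
    · obtain ⟨hc, j', hj', rfl⟩ := h
      right
      refine ⟨j', ?_⟩
      simp only [f5]
      subst hc
      congr 4
      ext
      simp only [Fin.ofNat]
      have := j.2
      rw [← hj', Nat.mod_eq_of_lt (by omega)]
  have h1 : numTransitions (net a b P Q S) ≤ E.card := by
    unfold numTransitions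
    rw [← Fintype.card_coe, ← Nat.card_eq_fintype_card]
    exact Nat.card_le_card_of_injective (fun t => (⟨t.1, hE t.1 t.2⟩ : E))
      (fun s t h => Subtype.ext (by simpa using congrArg Subtype.val h))
  refine h1.trans ?_
  have c1 : (Finset.univ.image f1).card ≤ A + 1 := by
    simpa using (Finset.card_image_le (s := (Finset.univ : Finset (Fin (A + 1)))) (f := f1))
  have c5 : (Finset.univ.image f5).card ≤ B + 1 := by
    simpa using (Finset.card_image_le (s := (Finset.univ : Finset (Fin (B + 1)))) (f := f5))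
  have c2 : (P'.image f2).card ≤ P'.card := Finset.card_image_le
  have c3 : (Q'.image f3).card ≤ Q'.card := Finset.card_image_le
  have c4 : (S'.image f4).card ≤ S'.card := Finset.card_image_le
  have u1 := Finset.card_union_le (Finset.univ.image f1 ∪ P'.image f2 ∪ Q'.image f3 ∪ S'.image f4)
    (Finset.univ.image f5)
  have u2 := Finset.card_union_le (Finset.univ.image f1 ∪ P'.image f2 ∪ Q'.image f3) (S'.image f4)
  have u3 := Finset.card_union_le (Finset.univ.image f1 ∪ P'.image f2) (Q'.image f3)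
  have u4 := Finset.card_union_le (Finset.univ.image f1) (P'.image f2)
  simp only [E]
  omega

theorem word_injective (hab : a ≠ b) {i j i' j' : ℕ} (h : word a b i j = word a b i' j') :
    i = i' ∧ j = j' := by
  unfold word at h
  induction i generalizing i' with
  | zero =>
    cases i' with
    | zero =>
      simp only [List.replicate_zero, List.nil_append, List.cons.injEq, true_and] at h
      refine ⟨rfl, ?_⟩
      have := congrArg List.length h
      simpa using this
    | succ i' =>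
      rw [List.replicate_succ, List.replicate_zero, List.nil_append, List.cons_append,
        List.cons.injEq] at h
      exact absurd h.1.symm hab
  | succ i ih =>
    cases i' with
    | zero =>
      rw [List.replicate_succ, List.replicate_zero, List.nil_append, List.cons_append,
        List.cons.injEq] at h
      exact absurd h.1 hab
    | succ i' =>
      rw [List.replicate_succ, List.replicate_succ, List.cons_append, List.cons_append,
        List.cons.injEq] at h
      have := ih h.2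
      exact ⟨by omega, this.2⟩

theorem Lang_injective (hab : a ≠ b) :
    Function.Injective (Lang (A := A) (B := B) a b) := by
  intro R R' h
  ext i j
  have key : ∀ R : Fin (A + 1) → Fin (B + 1) → Prop, word a b i j ∈ Lang a b R ↔ R i j := by
    intro R
    constructor
    · rintro ⟨i', j', hR, hw⟩
      obtain ⟨h1, h2⟩ := word_injective a b hab hw
      rw [Fin.ext h1, Fin.ext h2]
      exact hR
    · intro hR
      exact ⟨i, j, hR, rfl⟩
  rw [← key R, ← key R', h]

end network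

section counting

open Finset in
theorem card_small_subsets (U : Type*) [Fintype U] [DecidableEq U] (t Y : ℕ) (hY : 0 < Y) :
    (Fintype.card {E : Finset U // E.card ≤ t} : ℝ) ≤
      (Y : ℝ) ^ t * Real.exp ((Fintype.card U : ℝ) / Y) := by
  have hY' : (0 : ℝ) < Y := by exact_mod_cast hY
  have hY1 : (1 : ℝ) ≤ Y := by exact_mod_cast hY
  have h1 : ∑ E : Finset U, ((1 : ℝ) / Y) ^ #E = (1 / Y + 1) ^ Fintype.card U := by
    have := Fintype.sum_pow_mul_eq_add_pow U ((1 : ℝ) / Y) 1
    simpa using this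
  have h2 : (Fintype.card {E : Finset U // E.card ≤ t} : ℝ) * ((1 : ℝ) / Y) ^ t ≤
      ∑ E : Finset U, ((1 : ℝ) / Y) ^ #E := by
    rw [Fintype.card_subtype, ← nsmul_eq_mul, ← Finset.sum_const]
    calc ∑ _x ∈ univ.filter (fun E : Finset U => #E ≤ t), ((1 : ℝ) / Y) ^ t
        ≤ ∑ E ∈ univ.filter (fun E : Finset U => #E ≤ t), ((1 : ℝ) / Y) ^ #E := by
          apply Finset.sum_le_sum
          intro E hE
          simp only [mem_filter, mem_univ, true_and] at hE
          apply pow_le_pow_of_le_one (by positivity) _ hE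
          rw [div_le_one hY']
          exact hY1
      _ ≤ ∑ E : Finset U, ((1 : ℝ) / Y) ^ #E := by
          apply Finset.sum_le_sum_of_subset_of_nonneg (Finset.filter_subset _ _)
          intros
          positivity
  have h3 : ((1 : ℝ) / Y + 1) ^ Fintype.card U ≤ Real.exp ((Fintype.card U : ℝ) / Y) := by
    calc ((1 : ℝ) / Y + 1) ^ Fintype.card U ≤ (Real.exp (1 / Y)) ^ Fintype.card U := by
          apply pow_le_pow_left₀ (by positivity)
          exact Real.add_one_le_exp _
      _ = Real.exp ((Fintype.card U : ℝ) / Y) := by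
          rw [← Real.exp_nat_mul]
          congr 1
          ring
  have h4 := (h2.trans h1.le).trans h3
  rw [one_div, inv_pow, ← div_eq_mul_inv, div_le_iff₀ (by positivity)] at h4
  linarith

variable {α : Type u} [Fintype α]

/-- Codes for NFAs with `N` states and at most `t` transitions. -/
abbrev Code (α : Type u) (N t : ℕ) : Type u :=
  Fin N × Finset (Fin N) × {E : Finset (Fin N × α × Fin N) // E.card ≤ t}

/-- The language of a code. -/
def decode {N t : ℕ} (c : Code α N t) : Language α :=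
  (NFA.mk (fun s x => {s' | (s, x, s') ∈ c.2.2.1}) {c.1} (c.2.1 : Set (Fin N))).accepts

theorem exists_code {L : Language α} {N t t₀ : ℕ} (h : HasNFA L N t) (ht : t ≤ t₀) :
    ∃ c : Code α N t₀, decode c = L := by
  classical
  obtain ⟨M, q₀, hq, hM, hn⟩ := h
  let E : Finset (Fin N × α × Fin N) := Finset.univ.filter (fun t => t.2.2 ∈ M.step t.1 t.2.1)
  have hE : E.card = t := by
    rw [← hn, numTransitions, Nat.card_eq_fintype_card, Fintype.card_subtype]
  refine ⟨(q₀, Finset.univ.filter (fun s => s ∈ M.accept), ⟨E, by omega⟩), ?_⟩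
  rw [← hM, decode]
  congr 1
  rcases M with ⟨st, s0, ac⟩
  simp only at hq
  subst hq
  congr 1
  · funext s x
    ext s'
    simp [E]
  · ext s
    simp

theorem card_code (N t Y : ℕ) (hY : 0 < Y) (hN : N ≤ Y) [DecidableEq α] :
    (Fintype.card (Code α N t) : ℝ) ≤ 2 ^ Y * 2 ^ Y * (Y ^ t * 2 ^ (2 * Fintype.card α * Y)) := by
  have hY' : (0 : ℝ) < Y := by exact_mod_cast hY
  have hNY : (N : ℝ) ≤ Y := by exact_mod_cast hN
  rw [Fintype.card_prod, Fintype.card_prod, Fintype.card_fin, Fintype.card_finset, Fintype.card_fin]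
  push_cast
  have h1 : (N : ℝ) ≤ 2 ^ Y := by
    have : N < 2 ^ Y := lt_of_le_of_lt hN Nat.lt_two_pow_self
    exact_mod_cast this.le
  have h2 : (2 : ℝ) ^ N ≤ 2 ^ Y := pow_le_pow_right₀ (by norm_num) hN
  have h3 := card_small_subsets (Fin N × α × Fin N) t Y hY
  have h4 : Real.exp ((Fintype.card (Fin N × α × Fin N) : ℝ) / Y) ≤
      2 ^ (2 * Fintype.card α * Y) := by
    have e1 : ((Fintype.card (Fin N × α × Fin N) : ℝ) / Y) ≤ ((Fintype.card α * Y : ℕ) : ℝ) := by
      rw [div_le_iff₀ hY', Fintype.card_prod, Fintype.card_prod, Fintype.card_fin]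
      push_cast
      have : (0 : ℝ) ≤ Fintype.card α := by positivity
      have hN0 : (0 : ℝ) ≤ N := by positivity
      nlinarith [mul_le_mul hNY hNY hN0 hY'.le]
    calc Real.exp ((Fintype.card (Fin N × α × Fin N) : ℝ) / Y)
        ≤ Real.exp ((Fintype.card α * Y : ℕ) : ℝ) := Real.exp_le_exp.mpr e1
      _ = Real.exp 1 ^ (Fintype.card α * Y) := by
          rw [← Real.exp_nat_mul, mul_one]
      _ ≤ (2 ^ 2) ^ (Fintype.card α * Y) := by
          apply pow_le_pow_left₀ (Real.exp_pos _).le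
          have := Real.exp_one_lt_d9
          norm_num
          linarith
      _ = 2 ^ (2 * Fintype.card α * Y) := by
          rw [← pow_mul]
          congr 1
          ring
  calc (N : ℝ) * (2 ^ N * (Fintype.card {E : Finset (Fin N × α × Fin N) // E.card ≤ t} : ℝ))
      = N * 2 ^ N * (Fintype.card {E : Finset (Fin N × α × Fin N) // E.card ≤ t} : ℝ) := by ring
    _ ≤ 2 ^ Y * 2 ^ Y * (Y ^ t * 2 ^ (2 * Fintype.card α * Y)) := by
        apply mul_le_mul
        · exact mul_le_mul h1 h2 (by positivity) (by positivity)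
        · exact h3.trans (mul_le_mul_of_nonneg_left h4 (by positivity))
        · positivity
        · positivity

/-- Counting: some relation has a language without small NFAs. -/
theorem exists_hard (a b : α) (hab : a ≠ b) (A B y t₀ : ℕ)
    (hnum : (3 + 2 * Fintype.card α) * 2 ^ y + y * t₀ < (A + 1) * (B + 1)) :
    ∃ R : Fin (A + 1) → Fin (B + 1) → Prop, ∀ N t, HasNFA (Lang a b R) N t → t ≤ t₀ →
      2 ^ y < N := by
  classical
  by_contra hcon
  push Not at hcon
  have key : ∀ R : Fin (A + 1) → Fin (B + 1) → Prop,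
      ∃ c : (Σ N : Fin (2 ^ y + 1), Code α N t₀), decode c.2 = Lang a b R := by
    intro R
    obtain ⟨N, t, h1, h2, h3⟩ := hcon R
    obtain ⟨c, hc⟩ := exists_code h1 h2
    exact ⟨⟨⟨N, by omega⟩, c⟩, hc⟩
  choose F hF using key
  have hinj : Function.Injective F := by
    intro R R' h
    apply Lang_injective a b hab
    rw [← hF R, ← hF R', h]
  have hcard := Fintype.card_le_of_injective F hinj
  rw [Fintype.card_sigma, Fintype.card_fun, Fintype.card_fun, Fintype.card_fin, Fintype.card_fin,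
    Fintype.card_prop, ← pow_mul] at hcard
  have h2 : ((∑ N : Fin (2 ^ y + 1), Fintype.card (Code α N t₀) : ℕ) : ℝ) ≤
      (2 ^ y + 1 : ℕ) * (2 ^ (2 ^ y) * 2 ^ (2 ^ y) *
        ((2 ^ y) ^ t₀ * 2 ^ (2 * Fintype.card α * 2 ^ y))) := by
    push_cast
    calc ∑ N : Fin (2 ^ y + 1), (Fintype.card (Code α N t₀) : ℝ)
        ≤ ∑ N : Fin (2 ^ y + 1), (2 ^ (2 ^ y) * 2 ^ (2 ^ y) *
          ((2 ^ y) ^ t₀ * 2 ^ (2 * Fintype.card α * 2 ^ y)) : ℝ) := by
          apply Finset.sum_le_sum
          intro N _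
          have := card_code (α := α) N t₀ (2 ^ y) (by positivity) (by have := N.2; omega)
          push_cast at this
          exact this
      _ = _ := by
          rw [Finset.sum_const, Finset.card_univ, Fintype.card_fin, nsmul_eq_mul]
          push_cast
          ring
  have h3 : ((2 ^ y + 1 : ℕ) : ℝ) ≤ 2 ^ (2 ^ y) := by
    have : 2 ^ y < 2 ^ (2 ^ y) := Nat.lt_two_pow_self
    exact_mod_cast this
  have h4 : ((2 : ℝ)) ^ ((B + 1) * (A + 1)) ≤
      2 ^ ((3 + 2 * Fintype.card α) * 2 ^ y + y * t₀) := by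
    have h5 : (((2 ^ ((B + 1) * (A + 1)) : ℕ)) : ℝ) ≤
        ((∑ N : Fin (2 ^ y + 1), Fintype.card (Code α N t₀) : ℕ) : ℝ) := by exact_mod_cast hcard
    push_cast at h5
    push_cast at h2
    refine h5.trans (h2.trans ?_)
    calc ((2 : ℝ) ^ y + 1) * (2 ^ (2 ^ y) * 2 ^ (2 ^ y) *
          ((2 ^ y) ^ t₀ * 2 ^ (2 * Fintype.card α * 2 ^ y)))
        ≤ 2 ^ (2 ^ y) * (2 ^ (2 ^ y) * 2 ^ (2 ^ y) *
          ((2 ^ y) ^ t₀ * 2 ^ (2 * Fintype.card α * 2 ^ y))) := by
          apply mul_le_mul_of_nonneg_right _ (by positivity)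
          exact_mod_cast h3
      _ = 2 ^ ((3 + 2 * Fintype.card α) * 2 ^ y + y * t₀) := by
          rw [← pow_mul, ← pow_add, ← pow_add, ← pow_add, ← pow_add]
          congr 1
          ring
  have h6 := (pow_le_pow_iff_right₀ (by norm_num : (1 : ℝ) < 2)).mp h4
  have h7 : (B + 1) * (A + 1) = (A + 1) * (B + 1) := by ring
  omega

end counting

section pairing

theorem exists_pairing {ι κ : Type} [DecidableEq ι] [Fintype κ] [DecidableEq κ] (f : ι → κ) :
    ∀ (n : ℕ) (G : Finset ι), G.card = n → ∃ M : Finset (ι × ι), (∀ p ∈ M, f p.1 = f p.2) ∧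
      (∀ x ∈ G, ∃ p ∈ M, x = p.1 ∨ x = p.2) ∧
      2 * M.card ≤ G.card + Fintype.card κ := by
  intro n
  induction n using Nat.strong_induction_on with
  | _ n ih =>
    intro G hG
    by_cases hinj : Set.InjOn f G
    · refine ⟨G.image (fun x => (x, x)), ?_, ?_, ?_⟩
      · intro p hp
        rw [Finset.mem_image] at hp
        obtain ⟨x, _, rfl⟩ := hp
        rfl
      · intro x hx
        exact ⟨(x, x), Finset.mem_image.mpr ⟨x, hx, rfl⟩, Or.inl rfl⟩
      · have h1 : (G.image (fun x => (x, x))).card ≤ G.card := Finset.card_image_le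
        have h2 : G.card ≤ Fintype.card κ := by
          rw [← Finset.card_image_of_injOn hinj]
          exact Finset.card_le_univ _
        omega
    · unfold Set.InjOn at hinj
      push Not at hinj
      obtain ⟨x, hx, y, hy, hxy, hne⟩ := hinj
      have hx' : x ∈ G := hx
      have hy' : y ∈ G.erase x := Finset.mem_erase.mpr ⟨hne.symm, hy⟩
      have hc1 : ((G.erase x).erase y).card + 1 = (G.erase x).card :=
        Finset.card_erase_add_one hy'
      have hc2 : (G.erase x).card + 1 = G.card := Finset.card_erase_add_one hx'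
      obtain ⟨M, hM1, hM2, hM3⟩ := ih ((G.erase x).erase y).card (by omega) _ rfl
      refine ⟨insert (x, y) M, ?_, ?_, ?_⟩
      · intro p hp
        rw [Finset.mem_insert] at hp
        rcases hp with rfl | hp
        · exact hxy
        · exact hM1 p hp
      · intro z hz
        by_cases hzx : z = x
        · exact ⟨(x, y), Finset.mem_insert_self _ _, Or.inl hzx⟩
        · by_cases hzy : z = y
          · exact ⟨(x, y), Finset.mem_insert_self _ _, Or.inr hzy⟩
          · obtain ⟨p, hp, h⟩ := hM2 z (Finset.mem_erase.mpr ⟨hzy, Finset.mem_erase.mpr ⟨hzx, hz⟩⟩)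
            exact ⟨p, Finset.mem_insert_of_mem hp, h⟩
      · have := Finset.card_insert_le (x, y) M
        omega

end pairing

section assembly

variable {α : Type u}

/-- The small-state NFA. -/
theorem hasNFA_small (a b : α) {A B : ℕ} (R : Fin (A + 1) → Fin (B + 1) → Prop) :
    ∃ t, HasNFA (Lang a b R) (3 * (A + 1) + (B + 1)) t := by
  classical
  have h := hasNFA_of (net a b (fun (i : Fin (A + 1)) (x : Fin (A + 1)) => i = x)
    (fun (x : Fin (A + 1)) (y : Fin (A + 1)) => x = y) R) (Sum.inl 0) rfl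
  rw [net_accepts] at h
  have hR : (fun (i : Fin (A + 1)) (j : Fin (B + 1)) => ∃ x, i = x ∧ ∃ y, x = y ∧ R y j) = R := by
    funext i j
    simp
  rw [hR] at h
  have hc : Fintype.card (Fin (A + 1) ⊕ Fin (A + 1) ⊕ Fin (A + 1) ⊕ Fin (B + 1)) =
      3 * (A + 1) + (B + 1) := by
    simp only [Fintype.card_sum, Fintype.card_fin]
    ring
  rw [hc] at h
  exact ⟨_, h⟩

/-- The NFA with few transitions. -/
theorem hasNFA_few (a b : α) {A B G g C p : ℕ} (hA : A + 1 = G * g)
    (hB : B + 1 = C * p) (R : Fin (A + 1) → Fin (B + 1) → Prop) (t₁ : ℕ)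
    (ht₁ : G * C * (g + 2 ^ p) ≤ 2 * t₁) :
    ∃ n t, HasNFA (Lang a b R) n t ∧
      t ≤ (A + 1) + 2 * (G * g ^ 2) + t₁ + C * 2 ^ p * p + (B + 1) := by
  classical
  let row : Fin (A + 1) ≃ Fin G × Fin g := (finCongr hA).trans finProdFinEquiv.symm
  let col : Fin (B + 1) ≃ Fin C × Fin p := (finCongr hB).trans finProdFinEquiv.symm
  let pat : Fin G → Fin g → Fin C → (Fin p → Bool) :=
    fun γ u β c => decide (R (row.symm (γ, u)) (col.symm (β, c)))
  have hM : ∀ (γ : Fin G) (β : Fin C), ∃ M : Finset (Fin g × Fin g),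
      (∀ q ∈ M, pat γ q.1 β = pat γ q.2 β) ∧ (∀ x, ∃ q ∈ M, x = q.1 ∨ x = q.2) ∧
      2 * M.card ≤ g + 2 ^ p := by
    intro γ β
    obtain ⟨M, h1, h2, h3⟩ := exists_pairing (fun u => pat γ u β) _ (Finset.univ : Finset (Fin g)) rfl
    refine ⟨M, h1, fun x => h2 x (Finset.mem_univ _), ?_⟩
    simpa using h3
  choose M hM1 hM2 hM3 using hM
  let X := Fin G × Fin g × Fin g
  let Y := Fin C × (Fin p → Bool)
  let P : Fin (A + 1) → X → Prop :=
    fun i x => (row i).1 = x.1 ∧ ((row i).2 = x.2.1 ∨ (row i).2 = x.2.2)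
  let Q : X → Y → Prop := fun x y => x.2 ∈ M x.1 y.1 ∧ y.2 = pat x.1 x.2.1 y.1
  let S : Y → Fin (B + 1) → Prop := fun y j => (col j).1 = y.1 ∧ y.2 (col j).2 = true
  have h := hasNFA_of (net a b P Q S) (Sum.inl 0) rfl
  rw [net_accepts] at h
  have hR : (fun (i : Fin (A + 1)) (j : Fin (B + 1)) => ∃ x, P i x ∧ ∃ y, Q x y ∧ S y j) = R := by
    funext i j
    apply propext
    constructor
    · rintro ⟨⟨γ, u, w⟩, ⟨h1, h2⟩, ⟨β, φ⟩, ⟨h3, h4⟩, ⟨h5, h6⟩⟩
      simp only at h1 h2 h3 h4 h5 h6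
      subst h4
      have h7 : pat γ (row i).2 β = pat γ u β := by
        rcases h2 with h2 | h2
        · rw [h2]
        · rw [h2]
          exact (hM1 γ β (u, w) h3).symm
      rw [← h7, ← h1, ← h5] at h6
      simpa [pat] using h6
    · intro hR
      obtain ⟨q, hq, hq2⟩ := hM2 (row i).1 (col j).1 (row i).2
      refine ⟨((row i).1, q.1, q.2), ⟨rfl, hq2⟩, ((col j).1, pat (row i).1 q.1 (col j).1),
        ⟨hq, rfl⟩, rfl, ?_⟩
      simp only
      have h7 : pat (row i).1 (row i).2 (col j).1 = pat (row i).1 q.1 (col j).1 := by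
        rcases hq2 with h2 | h2
        · rw [← h2]
        · rw [h2]
          exact (hM1 (row i).1 (col j).1 q hq).symm
      rw [← h7]
      simpa [pat] using hR
  rw [hR] at h
  refine ⟨_, _, h, ?_⟩
  let P' : Finset (Fin (A + 1) × X) :=
    (Finset.univ : Finset X).image (fun x => (row.symm (x.1, x.2.1), x)) ∪
    (Finset.univ : Finset X).image (fun x => (row.symm (x.1, x.2.2), x))
  let S' : Finset (Y × Fin (B + 1)) :=
    (Finset.univ : Finset (Y × Fin p)).image (fun z => (z.1, col.symm (z.1.1, z.2)))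
  let Q' : Finset (X × Y) := (Finset.univ : Finset (Fin G × Fin C)).biUnion (fun z =>
    (M z.1 z.2).image (fun q => ((z.1, q.1, q.2), (z.2, pat z.1 q.1 z.2))))
  have hb := net_numTransitions a b P Q S P' Q' S' ?_ ?_ ?_
  · refine hb.trans ?_
    have c1 : P'.card ≤ 2 * (G * g ^ 2) := by
      refine (Finset.card_union_le _ _).trans ?_
      have e1 : ((Finset.univ : Finset X).image (fun x => (row.symm (x.1, x.2.1), x))).card ≤
          G * g ^ 2 := by
        refine Finset.card_image_le.trans ?_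
        rw [Finset.card_univ]
        simp only [X, Fintype.card_prod, Fintype.card_fin]
        nlinarith
      have e2 : ((Finset.univ : Finset X).image (fun x => (row.symm (x.1, x.2.2), x))).card ≤
          G * g ^ 2 := by
        refine Finset.card_image_le.trans ?_
        rw [Finset.card_univ]
        simp only [X, Fintype.card_prod, Fintype.card_fin]
        nlinarith
      omega
    have c3 : S'.card ≤ C * 2 ^ p * p := by
      refine Finset.card_image_le.trans ?_
      rw [Finset.card_univ]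
      simp only [Y, Fintype.card_prod, Fintype.card_fin, Fintype.card_fun, Fintype.card_bool]
      exact le_rfl
    have c2 : Q'.card ≤ t₁ := by
      have e1 : Q'.card ≤ ∑ z : Fin G × Fin C, (M z.1 z.2).card := by
        refine Finset.card_biUnion_le.trans ?_
        apply Finset.sum_le_sum
        intro z _
        exact Finset.card_image_le
      have e2 : 2 * ∑ z : Fin G × Fin C, (M z.1 z.2).card ≤ G * C * (g + 2 ^ p) := by
        rw [Finset.mul_sum]
        calc ∑ z : Fin G × Fin C, 2 * (M z.1 z.2).card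
            ≤ ∑ _z : Fin G × Fin C, (g + 2 ^ p) := by
              apply Finset.sum_le_sum
              intro z _
              exact hM3 z.1 z.2
          _ = G * C * (g + 2 ^ p) := by
              rw [Finset.sum_const, Finset.card_univ, Fintype.card_prod, Fintype.card_fin,
                Fintype.card_fin, smul_eq_mul]
      omega
    omega
  · rintro i ⟨γ, u, w⟩ ⟨h1, h2⟩
    simp only at h1 h2
    simp only [P', Finset.mem_union, Finset.mem_image, Finset.mem_univ, true_and]
    rcases h2 with h2 | h2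
    · left
      refine ⟨(γ, u, w), ?_⟩
      simp only [Prod.mk.injEq, and_true]
      rw [Equiv.symm_apply_eq]
      ext1
      · exact h1.symm
      · exact h2.symm
    · right
      refine ⟨(γ, u, w), ?_⟩
      simp only [Prod.mk.injEq, and_true]
      rw [Equiv.symm_apply_eq]
      ext1
      · exact h1.symm
      · exact h2.symm
  · rintro ⟨γ, u, w⟩ ⟨β, φ⟩ ⟨h1, h2⟩
    simp only at h1 h2
    simp only [Q', Finset.mem_biUnion, Finset.mem_image, Finset.mem_univ, true_and]
    exact ⟨(γ, β), (u, w), h1, by rw [h2]⟩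
  · rintro ⟨β, φ⟩ j ⟨h1, h2⟩
    simp only at h1 h2
    simp only [S', Finset.mem_image, Finset.mem_univ, true_and]
    refine ⟨((β, φ), (col j).2), ?_⟩
    simp only [Prod.mk.injEq, true_and]
    rw [Equiv.symm_apply_eq, ← h1]

end assembly

section final

variable {α : Type u}

theorem HasNFA.trans_le [Fintype α] {L : Language α} {n t : ℕ} (h : HasNFA L n t) :
    t ≤ Fintype.card α * n ^ 2 := by
  classical
  obtain ⟨M, q₀, _, _, rfl⟩ := h
  unfold numTransitions
  rw [Nat.card_eq_fintype_card]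
  refine (Fintype.card_subtype_le _).trans ?_
  rw [Fintype.card_prod, Fintype.card_prod, Fintype.card_fin]
  apply le_of_eq
  ring

theorem HasNFA.isRegular {L : Language α} {n t : ℕ} (h : HasNFA L n t) : L.IsRegular := by
  obtain ⟨M, q₀, _, hM, _⟩ := h
  exact ⟨Set (Fin n), inferInstance, M.toDFA, by rw [NFA.toDFA_correct, hM]⟩

theorem nsc_spec {L : Language α} (h : ∃ n t, HasNFA L n t) : ∃ t, HasNFA L (nsc L) t :=
  Nat.sInf_mem (s := {n | ∃ t, HasNFA L n t}) h

theorem tc_spec {L : Language α} (h : ∃ n t, HasNFA L n t) : ∃ n, HasNFA L n (tc L) :=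
  Nat.sInf_mem (s := {t | ∃ n, HasNFA L n t}) (by obtain ⟨n, t, h⟩ := h; exact ⟨t, n, h⟩)

theorem T_spec {L : Language α} (h : ∃ n t, HasNFA L n t) : HasNFA L (T L) (tc L) :=
  Nat.sInf_mem (s := {n | HasNFA L n (tc L)}) (tc_spec h)

theorem nsc_le {L : Language α} {n t : ℕ} (h : HasNFA L n t) : nsc L ≤ n :=
  Nat.sInf_le ⟨t, h⟩

theorem tc_le {L : Language α} {n t : ℕ} (h : HasNFA L n t) : tc L ≤ t :=
  Nat.sInf_le ⟨n, h⟩

theorem numeric (k r m V : ℕ) (hV : V = 2 ^ ((r + 1) * m)) (hm : k + 3 ≤ m) :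
    (3 + 2 * k) * 2 ^ (2 * r * m) + (2 * r * m) *
      (((r + 1) * m) * (32 * (r + 1) * V) + 2 * (((r + 1) * m) * (32 * (r + 1) * V) ^ 2) +
      (512 * (r + 1) ^ 2 * ((r + 1) * m) * (32 * (r + 1) + 1) * (V * V)) +
      (32 * (r + 1)) * (32 * (r + 1) * V) * V * ((r + 1) * m) +
      (32 * (r + 1)) * (32 * (r + 1) * V) * ((r + 1) * m)) <
    (((r + 1) * m) * (32 * (r + 1) * V)) * ((32 * (r + 1)) * (32 * (r + 1) * V) * ((r + 1) * m)) := by
  have hV1 : 1 ≤ V := by rw [hV]; exact Nat.one_le_two_pow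
  have hVV : V ≤ V * V := Nat.le_mul_of_pos_left V hV1
  have hW : V * V = 2 ^ (2 * r * m) * 4 ^ m := by
    rw [hV, ← pow_add, show (4 : ℕ) = 2 ^ 2 by norm_num, ← pow_mul, ← pow_add]
    congr 1
    ring
  have h4 : 3 + 2 * k < 4 ^ m := by
    have h1 : m < 2 ^ m := Nat.lt_two_pow_self
    have h2 : (4 : ℕ) ^ m = 2 ^ m * 2 ^ m := by rw [← mul_pow]; norm_num
    rw [h2]
    nlinarith
  have h5 : (3 + 2 * k) * 2 ^ (2 * r * m) < V * V := by
    rw [hW, mul_comm]
    exact Nat.mul_lt_mul_of_pos_left h4 (by positivity)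
  obtain ⟨q, hq⟩ : ∃ q, q = r + 1 := ⟨_, rfl⟩
  have hq1 : 1 ≤ q := by omega
  have hm1 : 1 ≤ m := by omega
  rw [← hq]
  obtain ⟨W, hWdef⟩ : ∃ W, W = V * V := ⟨_, rfl⟩
  have e1 : (q * m) * (32 * q * V) ≤ 32 * q ^ 2 * m * W := by
    rw [hWdef]; nlinarith [Nat.mul_le_mul_left (32 * q ^ 2 * m) hVV]
  have e2 : 2 * ((q * m) * (32 * q * V) ^ 2) = 2048 * q ^ 3 * m * W := by
    rw [hWdef]; ring
  have e3 : (512 * q ^ 2 * (q * m) * (32 * q + 1) * (V * V)) =
      16384 * q ^ 4 * m * W + 512 * q ^ 3 * m * W := by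
    rw [hWdef]; ring
  have e4 : (32 * q) * (32 * q * V) * V * (q * m) = 1024 * q ^ 3 * m * W := by
    rw [hWdef]; ring
  have e5 : (32 * q) * (32 * q * V) * (q * m) ≤ 1024 * q ^ 3 * m * W := by
    rw [hWdef]; nlinarith [Nat.mul_le_mul_left (1024 * q ^ 3 * m) hVV]
  have e6 : ((q * m) * (32 * q * V)) * ((32 * q) * (32 * q * V) * (q * m)) =
      32768 * q ^ 5 * m ^ 2 * W := by
    rw [hWdef]; ring
  have hq2 : q ^ 2 ≤ q ^ 3 := Nat.pow_le_pow_right hq1 (by norm_num)
  have e7 : 32 * q ^ 2 * m * W ≤ 32 * q ^ 3 * m * W := by gcongr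
  have e8 : (q * m) * (32 * q * V) + 2 * ((q * m) * (32 * q * V) ^ 2) +
      (512 * q ^ 2 * (q * m) * (32 * q + 1) * (V * V)) +
      (32 * q) * (32 * q * V) * V * (q * m) +
      (32 * q) * (32 * q * V) * (q * m) ≤ 16384 * q ^ 4 * m * W + 4640 * q ^ 3 * m * W := by
    rw [e2, e3, e4]
    linarith
  rw [e6]
  have hr : r = q - 1 := by omega
  have e9 : (2 * r * m) * (16384 * q ^ 4 * m * W + 4640 * q ^ 3 * m * W) + q ^ 4 * m ^ 2 * W ≤
      32768 * q ^ 5 * m ^ 2 * W := by
    obtain ⟨s, rfl⟩ : ∃ s, q = s + 1 := ⟨r, hq⟩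
    have : r = s := by omega
    subst this
    have : (2 * r * m) * (16384 * (r + 1) ^ 4 * m * W + 4640 * (r + 1) ^ 3 * m * W) +
        (r + 1) ^ 4 * m ^ 2 * W = ((2 * r) * (16384 * (r + 1) + 4640) + (r + 1)) *
        ((r + 1) ^ 3 * m ^ 2 * W) := by ring
    rw [this]
    have : 32768 * (r + 1) ^ 5 * m ^ 2 * W = (32768 * (r + 1) ^ 2) *
        ((r + 1) ^ 3 * m ^ 2 * W) := by ring
    rw [this]
    apply Nat.mul_le_mul_right
    nlinarith
  have e10 : W ≤ q ^ 4 * m ^ 2 * W := by
    apply Nat.le_mul_of_pos_left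
    positivity
  have e11 := Nat.mul_le_mul_left (2 * r * m) e8
  rw [← hWdef] at h5 e11
  rw [← hWdef]
  omega

theorem main_params [Fintype α] [Nontrivial α] (r m : ℕ) (hm : Fintype.card α + 3 ≤ m) :
    ∃ L : Language α, (∃ t, HasNFA L (nsc L) t) ∧
      nsc L ≤ 4096 * (r + 1) ^ 3 * m * 2 ^ ((r + 1) * m) ∧ 2 ^ (2 * r * m) < T L ∧
      (nsc L ≤ 2 ^ (2 * r * m) → 2 ^ m ≤ Fintype.card α * nsc L ^ 2) := by
  classical
  obtain ⟨a, b, hab⟩ := exists_pair_ne α
  obtain ⟨V, hV⟩ : ∃ V, V = 2 ^ ((r + 1) * m) := ⟨_, rfl⟩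
  have hV1 : 1 ≤ V := by rw [hV]; exact Nat.one_le_two_pow
  have hnum := numeric (Fintype.card α) r m V hV hm
  have hm1 : 1 ≤ m := by omega
  obtain ⟨A, hA⟩ : ∃ A, A + 1 = ((r + 1) * m) * (32 * (r + 1) * V) :=
    ⟨((r + 1) * m) * (32 * (r + 1) * V) - 1, Nat.sub_add_cancel (Nat.one_le_iff_ne_zero.mpr
      (by positivity))⟩
  obtain ⟨B, hB⟩ : ∃ B, B + 1 = (32 * (r + 1)) * (32 * (r + 1) * V) * ((r + 1) * m) :=
    ⟨(32 * (r + 1)) * (32 * (r + 1) * V) * ((r + 1) * m) - 1,
      Nat.sub_add_cancel (Nat.one_le_iff_ne_zero.mpr (by positivity))⟩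
  rw [← hA, ← hB] at hnum
  obtain ⟨t₀, ht₀⟩ : ∃ t₀, t₀ = (A + 1) + 2 * (((r + 1) * m) * (32 * (r + 1) * V) ^ 2) +
      (512 * (r + 1) ^ 2 * ((r + 1) * m) * (32 * (r + 1) + 1) * (V * V)) +
      (32 * (r + 1)) * (32 * (r + 1) * V) * V * ((r + 1) * m) + (B + 1) := ⟨_, rfl⟩
  rw [← ht₀] at hnum
  obtain ⟨R, hR⟩ := exists_hard a b hab A B (2 * r * m) t₀ hnum
  obtain ⟨t, hsmall⟩ := hasNFA_small a b R
  obtain ⟨n', t', hfew, ht'⟩ := hasNFA_few a b hA hB R
    (512 * (r + 1) ^ 2 * ((r + 1) * m) * (32 * (r + 1) + 1) * (V * V))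
    (by rw [← hV]; apply le_of_eq; ring)
  rw [← hV, ← ht₀] at ht'
  have hex : ∃ n t, HasNFA (Lang a b R) n t := ⟨_, _, hsmall⟩
  refine ⟨Lang a b R, nsc_spec hex, ?_, ?_, ?_⟩
  · refine (nsc_le hsmall).trans ?_
    rw [hA, hB, ← hV]
    have : (r + 1) ^ 2 ≤ (r + 1) ^ 3 := Nat.pow_le_pow_right (by omega) (by norm_num)
    calc 3 * ((r + 1) * m * (32 * (r + 1) * V)) +
          32 * (r + 1) * (32 * (r + 1) * V) * ((r + 1) * m)
        = (96 * (r + 1) ^ 2 + 1024 * (r + 1) ^ 3) * (m * V) := by ring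
      _ ≤ (4096 * (r + 1) ^ 3) * (m * V) := by
          apply Nat.mul_le_mul_right
          omega
      _ = 4096 * (r + 1) ^ 3 * m * V := by ring
  · exact hR _ _ (T_spec hex) ((tc_le hfew).trans ht')
  · intro hle
    obtain ⟨t2, ht2⟩ := nsc_spec hex
    have h1 : t₀ < t2 := by
      by_contra hcon
      push Not at hcon
      have := hR _ _ ht2 hcon
      omega
    have h2 := ht2.trans_le
    have h3 : 2 ^ m ≤ V := by
      rw [hV]
      apply Nat.pow_le_pow_right (by norm_num)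
      exact Nat.le_mul_of_pos_left m (by omega)
    have h4 : V ≤ A + 1 := by
      rw [hA]
      calc V = 1 * V := by ring
        _ ≤ ((r + 1) * m * (32 * (r + 1))) * V := by
            apply Nat.mul_le_mul_right
            exact Nat.one_le_iff_ne_zero.mpr (by positivity)
        _ = _ := by ring
    omega

theorem exists_m (c : ℕ) : ∃ m₀ : ℕ, ∀ m ≥ m₀, c * m ^ 2 ≤ 2 ^ m := by
  have h := (isLittleO_pow_const_const_pow_of_one_lt (R := ℝ) 2 (by norm_num : (1 : ℝ) < 2))
  have h2 := h.bound (c := 1 / (c + 1)) (by positivity)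
  rw [Filter.eventually_atTop] at h2
  obtain ⟨m₀, hm₀⟩ := h2
  refine ⟨m₀, fun m hm => ?_⟩
  have h3 := hm₀ m hm
  simp only [norm_pow, Real.norm_ofNat, RCLike.norm_natCast] at h3
  rw [one_div, inv_mul_eq_div, le_div_iff₀ (by positivity)] at h3
  have h4 : (c : ℝ) * m ^ 2 ≤ 2 ^ m := by nlinarith [sq_nonneg (m : ℝ)]
  exact_mod_cast h4

/-- For every finite alphabet with at least two letters, every `C` and every real `γ < 2` there is
a regular language with at least `C` states, such that every transition-minimal NFA has more than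
`C * nsc L` states, and at least `(nsc L) ^ γ` states. -/
theorem result (α : Type u) [Fintype α] [Nontrivial α] (C : ℕ) (γ : ℝ) (hγ : γ < 2) :
    ∃ L : Language α, L.IsRegular ∧ C ≤ nsc L ∧ C * nsc L < T L ∧ (nsc L : ℝ) ^ γ ≤ T L := by
  -- choose `r`
  obtain ⟨r, hr⟩ : ∃ r : ℕ, 2 ≤ r ∧ γ ≤ (2 * r - 1 : ℝ) / (r + 1) := by
    obtain ⟨s, hs⟩ := exists_nat_ge (3 / (2 - γ))
    refine ⟨s + 2, by omega, ?_⟩
    have h2 : 0 < 2 - γ := by linarith
    rw [div_le_iff₀ h2] at hs
    have hs0 : (0 : ℝ) ≤ s := by positivity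
    rw [le_div_iff₀ (by positivity)]
    push_cast
    nlinarith
  obtain ⟨hr2, hγr⟩ := hr
  obtain ⟨m₁, hm₁⟩ := exists_m ((4096 * (r + 1) ^ 3) ^ 2 * (C + 1) ^ 2 * (Fintype.card α + 1))
  obtain ⟨m, hm⟩ : ∃ m, m = m₁ + Fintype.card α + 3 := ⟨_, rfl⟩
  have hm1 : 1 ≤ m := by omega
  have hbig := hm₁ m (by omega)
  have hb1 : (4096 * (r + 1) ^ 3 * m) ^ 2 ≤ 2 ^ m := by
    refine le_trans ?_ hbig
    calc (4096 * (r + 1) ^ 3 * m) ^ 2 = ((4096 * (r + 1) ^ 3) ^ 2 * m ^ 2) * 1 := by ring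
      _ ≤ ((4096 * (r + 1) ^ 3) ^ 2 * m ^ 2) * ((C + 1) ^ 2 * (Fintype.card α + 1)) := by
          apply Nat.mul_le_mul_left
          exact Nat.one_le_iff_ne_zero.mpr (by positivity)
      _ = _ := by ring
  have hb2 : C * (4096 * (r + 1) ^ 3 * m) ≤ 2 ^ m := by
    refine le_trans ?_ hbig
    calc C * (4096 * (r + 1) ^ 3 * m) ≤ (C + 1) ^ 2 * (4096 * (r + 1) ^ 3 * m) ^ 2 := by
          apply Nat.mul_le_mul
          · nlinarith
          · exact Nat.le_self_pow (by norm_num) _
      _ = (4096 * (r + 1) ^ 3) ^ 2 * (C + 1) ^ 2 * 1 * m ^ 2 := by ring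
      _ ≤ (4096 * (r + 1) ^ 3) ^ 2 * (C + 1) ^ 2 * (Fintype.card α + 1) * m ^ 2 := by
          apply Nat.mul_le_mul_right
          apply Nat.mul_le_mul_left
          omega
  have hb3 : Fintype.card α * C ^ 2 < 2 ^ m := by
    refine lt_of_lt_of_le ?_ hbig
    calc Fintype.card α * C ^ 2 < (C + 1) ^ 2 * (Fintype.card α + 1) := by nlinarith
      _ = 1 * ((C + 1) ^ 2 * (Fintype.card α + 1)) := by ring
      _ ≤ ((4096 * (r + 1) ^ 3) ^ 2 * m ^ 2) * ((C + 1) ^ 2 * (Fintype.card α + 1)) := by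
          apply Nat.mul_le_mul_right
          exact Nat.one_le_iff_ne_zero.mpr (by positivity)
      _ = _ := by ring
  obtain ⟨L, hL1, hL2, hL3, hL4⟩ := main_params (α := α) r m (by omega)
  obtain ⟨t, ht⟩ := hL1
  have hpow : 2 ^ m * 2 ^ ((r + 1) * m) ≤ 2 ^ (2 * r * m) := by
    rw [← pow_add]
    apply Nat.pow_le_pow_right (by norm_num)
    nlinarith
  have hCn : C * nsc L ≤ 2 ^ (2 * r * m) := by
    calc C * nsc L ≤ C * (4096 * (r + 1) ^ 3 * m * 2 ^ ((r + 1) * m)) :=
          Nat.mul_le_mul_left _ hL2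
      _ = (C * (4096 * (r + 1) ^ 3 * m)) * 2 ^ ((r + 1) * m) := by ring
      _ ≤ 2 ^ m * 2 ^ ((r + 1) * m) := Nat.mul_le_mul_right _ hb2
      _ ≤ _ := hpow
  have hn : nsc L ≤ 2 ^ (2 * r * m) := by
    calc nsc L ≤ (4096 * (r + 1) ^ 3 * m * 2 ^ ((r + 1) * m)) := hL2
      _ ≤ 2 ^ m * 2 ^ ((r + 1) * m) := by
          apply Nat.mul_le_mul_right
          exact (Nat.le_self_pow (by norm_num) _).trans hb1
      _ ≤ _ := hpow
  have hlow := hL4 hn
  have hCle : C ≤ nsc L := by
    by_contra hcon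
    push Not at hcon
    have h1 : nsc L ^ 2 ≤ C ^ 2 := Nat.pow_le_pow_left hcon.le 2
    have h2 := Nat.mul_le_mul_left (Fintype.card α) h1
    omega
  have hn1 : 1 ≤ nsc L := by
    by_contra hcon
    have h0 : nsc L = 0 := by omega
    rw [h0] at hlow
    have : 0 < 2 ^ m := by positivity
    simp at hlow
  refine ⟨L, ht.isRegular, hCle, by omega, ?_⟩
  have hn1' : (1 : ℝ) ≤ nsc L := by exact_mod_cast hn1
  calc (nsc L : ℝ) ^ γ ≤ (nsc L : ℝ) ^ ((2 * r - 1 : ℝ) / (r + 1)) :=
        Real.rpow_le_rpow_of_exponent_le hn1' hγr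
    _ ≤ ((2 : ℝ) ^ (2 * r * m)) := by
        have hkey : nsc L ^ (2 * r - 1) ≤ (2 ^ (2 * r * m)) ^ (r + 1) := by
          calc nsc L ^ (2 * r - 1) ≤ (4096 * (r + 1) ^ 3 * m * 2 ^ ((r + 1) * m)) ^ (2 * r - 1) :=
                Nat.pow_le_pow_left hL2 _
            _ = (4096 * (r + 1) ^ 3 * m) ^ (2 * r - 1) * (2 ^ ((r + 1) * m)) ^ (2 * r - 1) := by
                rw [mul_pow]
            _ ≤ (4096 * (r + 1) ^ 3 * m) ^ (2 * (r + 1)) * (2 ^ ((r + 1) * m)) ^ (2 * r - 1) := by
                apply Nat.mul_le_mul_right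
                apply Nat.pow_le_pow_right _ (by omega)
                exact Nat.one_le_iff_ne_zero.mpr (by positivity)
            _ ≤ (2 ^ m) ^ (r + 1) * (2 ^ ((r + 1) * m)) ^ (2 * r - 1) := by
                apply Nat.mul_le_mul_right
                rw [pow_mul]
                exact Nat.pow_le_pow_left hb1 _
            _ = (2 ^ (2 * r * m)) ^ (r + 1) := by
                rw [← pow_mul, ← pow_mul, ← pow_mul, ← pow_add]
                congr 1
                obtain ⟨s, rfl⟩ : ∃ s, r = s + 1 := ⟨r - 1, by omega⟩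
                have : 2 * (s + 1) - 1 = 2 * s + 1 := by omega
                rw [this]
                ring
        have hkey' : (nsc L : ℝ) ^ (2 * r - 1) ≤ ((2 : ℝ) ^ (2 * r * m)) ^ (r + 1) := by
          exact_mod_cast hkey
        have hcast : ((2 * r - 1 : ℕ) : ℝ) = 2 * r - 1 := by
          rw [Nat.cast_sub (by omega)]
          push_cast
          ring
        rw [← hcast, div_eq_mul_inv, Real.rpow_mul (by positivity), Real.rpow_natCast]
        have hr1 : (r : ℝ) + 1 = ((r + 1 : ℕ) : ℝ) := by push_cast; ring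
        rw [hr1]
        calc ((nsc L : ℝ) ^ (2 * r - 1)) ^ (((r + 1 : ℕ) : ℝ)⁻¹)
            ≤ (((2 : ℝ) ^ (2 * r * m)) ^ (r + 1)) ^ (((r + 1 : ℕ) : ℝ)⁻¹) := by
              apply Real.rpow_le_rpow (by positivity) hkey' (by positivity)
          _ = (2 : ℝ) ^ (2 * r * m) :=
              Real.pow_rpow_inv_natCast (by positivity) (by omega)
    _ ≤ T L := by exact_mod_cast hL3.le

end final

end Pool.Agent.Results.MP_48fb2a_lc.QuadraticGap
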